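import Pool.Agent.Work.MP_8f87b2_h26.C2
import Pool.Agent.Work.MP_8f87b2_h26.Two

/-!
# Near perfect matching of the necklaces, leftover = pile, the constant class moves to the right
-/

set_option autoImplicit false

namespace Pool.OddHop

open Finset

variable {n m : ℕ} [NeZero n]

/-- all beads in the gap `x` -/
def pile (m : ℕ) (x : ZMod n) : Ms n m := ⟨fun z => if z = x then m else 0, by simp⟩

/-- the constant function -/
def cst {c : ℕ} (h : n * c = m) : Ms n m := ⟨fun _ => c, by
  rw [sum_const, card_univ, ZMod.card, smul_eq_mul, h]⟩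

/-- classes modulo all rotations -/
abbrev QQ (n m : ℕ) [NeZero n] : Type := Quotient (msSetoid (n := n) m (one_dvd n))

/-- one bead moves one gap to the right -/
def HopR (q q' : QQ n m) : Prop :=
  ∃ a a' : Ms n m, Quotient.mk (msSetoid m (one_dvd n)) a = q ∧
    Quotient.mk (msSetoid m (one_dvd n)) a' = q' ∧
    ∃ x : ZMod n, ∀ z, a.1 z + (if x + 1 = z then 1 else 0) = a'.1 z + (if x = z then 1 else 0)

theorem hopR_or {q q' : QQ n m} (h : HopQ (one_dvd n) q q') : HopR q q' ∨ HopR q' q := by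
  obtain ⟨a, a', h1, h2, x, y, h3 | h3, h4⟩ := h
  · subst h3
    exact Or.inl ⟨a, a', h1, h2, x, h4⟩
  · subst h3
    exact Or.inr ⟨a', a, h2, h1, y, fun z => (h4 z).symm⟩

theorem rot_iff {a b : Ms n m} : Quotient.mk (msSetoid m (one_dvd n)) a =
    Quotient.mk (msSetoid m (one_dvd n)) b ↔ ∃ t : ZMod n, ∀ x, b.1 (x + t) = a.1 x := by
  constructor
  · intro h
    obtain ⟨t, -, h1⟩ := Quotient.exact h
    exact ⟨t, h1⟩
  · rintro ⟨t, h1⟩
    exact Quotient.sound ⟨t, Subsingleton.elim _ _, h1⟩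

/-- reflection -/
def Ms.rev (a : Ms n m) : Ms n m :=
  ⟨fun z => a.1 (-z), (Equiv.sum_comp (Equiv.neg (ZMod n)) a.1).trans a.2⟩

theorem Ms.rev_rev (a : Ms n m) : a.rev.rev = a := by
  apply Subtype.ext
  funext z
  change a.1 (- -z) = a.1 z
  rw [neg_neg]

/-- reflection of the classes -/
def rv : QQ n m → QQ n m :=
  Quotient.map Ms.rev (by
    rintro a b ⟨t, -, h⟩
    refine ⟨-t, Subsingleton.elim _ _, fun x => ?_⟩
    change b.1 (-(x + -t)) = a.1 (-x)
    rw [← h (-x)]
    congr 1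
    ring)

theorem rv_mk (a : Ms n m) : rv (Quotient.mk (msSetoid m (one_dvd n)) a) =
    Quotient.mk (msSetoid m (one_dvd n)) a.rev := rfl

theorem rv_rv (q : QQ n m) : rv (rv q) = q := by
  obtain ⟨a, rfl⟩ := Quotient.exists_rep q
  rw [rv_mk, rv_mk, Ms.rev_rev]

theorem rv_hopR {q q' : QQ n m} (h : HopR q q') : HopR (rv q') (rv q) := by
  obtain ⟨a, a', rfl, rfl, x, h1⟩ := h
  refine ⟨a'.rev, a.rev, rfl, rfl, -x - 1, fun z => ?_⟩
  have h2 := h1 (-z)
  change a'.1 (-z) + _ = a.1 (-z) + _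
  have e1 : (-x - 1 + 1 = z) ↔ (x = -z) := by
    constructor
    · intro h; rw [← h]; ring
    · intro h; rw [h]; ring
  have e2 : (-x - 1 = z) ↔ (x + 1 = -z) := by
    constructor
    · intro h; rw [← h]; ring
    · intro h
      have : x = -z - 1 := by rw [← h]; ring
      rw [this]; ring
  simp only [e1, e2]
  omega

theorem HopR.hop {q q' : QQ n m} (h : HopR q q') : HopQ (one_dvd n) q q' := by
  obtain ⟨a, a', h1, h2, x, h3⟩ := h
  exact ⟨a, a', h1, h2, x, x + 1, Or.inl rfl, h3⟩

theorem HopR.hop' {q q' : QQ n m} (h : HopR q q') : HopQ (one_dvd n) q' q := by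
  obtain ⟨a, a', h1, h2, x, h3⟩ := h
  exact ⟨a', a, h2, h1, x + 1, x, Or.inr rfl, fun z => (h3 z).symm⟩

theorem rv_pile : rv (Quotient.mk (msSetoid m (one_dvd n)) (pile m 0)) =
    Quotient.mk (msSetoid m (one_dvd n)) (pile m 0) := by
  rw [rv_mk]
  congr 1
  apply Subtype.ext
  funext z
  change (if -z = 0 then m else 0) = if z = 0 then m else 0
  simp only [neg_eq_zero]

theorem rv_cst {c : ℕ} (h : n * c = m) : rv (Quotient.mk (msSetoid m (one_dvd n)) (cst h)) =
    Quotient.mk (msSetoid m (one_dvd n)) (cst h) := rfl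

theorem near_pile0 (hn : Odd n) (m : ℕ) :
    ∃ ι : QQ n m → QQ n m, (∀ q, ι (ι q) = q) ∧ (∀ q, ι q = q ∨ HopQ (one_dvd n) q (ι q)) ∧
      ∀ q, ι q = q → q = Quotient.mk _ (pile m 0) := by
  by_cases hm2 : m = 2
  · subst hm2
    have h0 : 2 * 0 + 1 ≤ n := by
      have := NeZero.ne n
      omega
    obtain ⟨ι, h1, h2, h3⟩ := near_two_prescribed hn (one_dvd n) 0 0 h0 (by norm_num)
    refine ⟨ι, h1, h2, fun q hq => ?_⟩
    rw [((h3 q).1 hq).1]
    unfold P
    congr 1
    apply Subtype.ext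
    funext z
    simp only [two, pile, Nat.cast_zero, add_zero, Pi.add_apply, Pi.single_apply]
    split_ifs <;> rfl
  · by_cases hm : 1 ≤ m
    · obtain ⟨ι, h1, h2, h3⟩ := near_prescribed hn (one_dvd n) hm hm2
        (Quotient.mk (msSetoid m (one_dvd n)) (pile m 0))
      exact ⟨ι, h1, h2, fun q hq => ((h3 q).1 hq).1⟩
    · have hm0 : m = 0 := by omega
      subst hm0
      refine ⟨id, fun _ => rfl, fun _ => Or.inl rfl, fun q _ => ?_⟩
      obtain ⟨a, rfl⟩ := Quotient.exists_rep q
      have key : ∀ a : Ms n 0, ∀ x, a.1 x = 0 := by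
        intro a x
        have h1 := a.2
        rw [sum_eq_zero_iff] at h1
        exact h1 x (mem_univ x)
      exact rot_iff.2 ⟨0, fun x => by rw [key, key]⟩

theorem cst_ne_pile {c : ℕ} (h : n * c = m) (hc : 1 ≤ c) (h3 : 2 ≤ n) :
    Quotient.mk (msSetoid m (one_dvd n)) (cst h) ≠
      Quotient.mk (msSetoid m (one_dvd n)) (pile m 0) := by
  intro he
  obtain ⟨t, ht⟩ := rot_iff.1 he
  have h1 := ht (1 - t)
  change (if (1 - t + t : ZMod n) = 0 then m else 0) = c at h1
  rw [sub_add_cancel] at h1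
  haveI : Fact (1 < n) := ⟨h3⟩
  rw [if_neg one_ne_zero] at h1
  omega

/-- **near perfect matching**, leftover = pile, the constant class is matched to the right -/
theorem near_pile (hn : Odd n) (h3 : 2 ≤ n) (m : ℕ) :
    ∃ ι : QQ n m → QQ n m, (∀ q, ι (ι q) = q) ∧ (∀ q, ι q = q ∨ HopQ (one_dvd n) q (ι q)) ∧
      (∀ q, ι q = q → q = Quotient.mk _ (pile m 0)) ∧
      ∀ c (h : n * c = m), 1 ≤ c → HopR (Quotient.mk (msSetoid m (one_dvd n)) (cst h))
        (ι (Quotient.mk (msSetoid m (one_dvd n)) (cst h))) := by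
  obtain ⟨ι, i1, i2, i3⟩ := near_pile0 (n := n) hn m
  by_cases hc : ∃ c, ∃ h : n * c = m, 1 ≤ c ∧
      ¬ HopR (Quotient.mk (msSetoid m (one_dvd n)) (cst h))
        (ι (Quotient.mk (msSetoid m (one_dvd n)) (cst h)))
  · obtain ⟨c, h, hc1, hno⟩ := hc
    have hne : ι (Quotient.mk (msSetoid m (one_dvd n)) (cst h)) ≠
        Quotient.mk (msSetoid m (one_dvd n)) (cst h) := fun he => cst_ne_pile h hc1 h3 (i3 _ he)
    have hH := hopR_or ((i2 _).resolve_left hne)
    have hL := hH.resolve_left hno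
    refine ⟨fun q => rv (ι (rv q)), fun q => ?_, fun q => ?_, fun q hq => ?_, ?_⟩
    · simp only [rv_rv, i1]
    · rcases i2 (rv q) with h4 | h4
      · left
        change rv (ι (rv q)) = q
        rw [h4, rv_rv]
      · right
        rcases hopR_or h4 with h5 | h5
        · have := rv_hopR h5
          rw [rv_rv] at this
          exact this.hop'
        · have := rv_hopR h5
          rw [rv_rv] at this
          exact this.hop
    · have h4 : ι (rv q) = rv q := by
        have := congrArg rv hq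
        change rv (rv (ι (rv q))) = rv q at this
        rwa [rv_rv] at this
      have h5 := congrArg rv (i3 _ h4)
      rwa [rv_rv, rv_pile] at h5
    · intro c' h' hc'
      have hcc : c' = c := by
        have : n * c' = n * c := h'.trans h.symm
        exact Nat.eq_of_mul_eq_mul_left (by omega) this
      subst hcc
      have := rv_hopR hL
      rw [rv_cst] at this
      exact this
  · push Not at hc
    exact ⟨ι, i1, i2, i3, fun c h h1 => hc c h h1⟩

end Pool.OddHop
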